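import Pool.Agent.Helper83.PT.St7

set_option autoImplicit false

/-! Project PT (helper83), MP_26f0da_lc: module CN1, runs of the counting automaton. -/

namespace Pool.Agent.Helper83.PT.H73

open Pool.Agent.Helper73.DC
open Finset
open scoped Classical

theorem symAt_lm {α : Type} (w : List α) (i : ℕ) : symAt w i = Sym.lm ↔ i = 0 := by
  unfold symAt
  by_cases h : i = 0
  · simp [h]
  · rw [if_neg h]
    constructor
    · intro h2
      cases h3 : w[i - 1]? with
      | none => rw [h3] at h2; simp at h2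
      | some a => rw [h3] at h2; simp at h2
    · intro h2; exact absurd h2 h

theorem exn_castSucc {k : ℕ} {X : Type} (p : Fin k → X) (r : X) (i : Fin k) : exn p r i.castSucc = p i := by
  unfold exn
  have h : ((i.castSucc : Fin (k + 1)) : ℕ) < k := by simp
  rw [dif_pos h]
  congr 1

theorem exn_last {k : ℕ} {X : Type} (p : Fin k → X) (r : X) : exn p r (Fin.last k) = r := by
  unfold exn
  have h : ¬ ((Fin.last k : Fin (k + 1)) : ℕ) < k := by simp
  rw [dif_neg h]

theorem nps_exn {α : Type} {k : ℕ} (w : List α) (d : Fin k → Mv) (m : Mv) (P : Fin (k + 1) → ℕ) :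
    (fun i : Fin k => nps w (exn d m) P i.castSucc) = nps w d (fun i => P i.castSucc) := by
  funext i
  unfold nps
  rw [exn_castSucc]

theorem nps_last {α : Type} {k : ℕ} (w : List α) (d : Fin k → Mv) (m : Mv) (P : Fin (k + 1) → ℕ) :
    nps w (exn d m) P (Fin.last k) = min (mvN m (P (Fin.last k))) (w.length + 1) := by
  unfold nps
  rw [exn_last]

theorem nps_le {α : Type} {k : ℕ} (w : List α) (d : Fin k → Mv) (p : Fin k → ℕ) (j : Fin k) : nps w d p j ≤ w.length + 1 := by
  unfold nps
  exact min_le_right _ _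

/-- One move of the counting automaton. -/
theorem cnt_tr {α : Type} (C0 : ℕ) (M : MPDA α) (w : List α) (q : M.Q) (u : Bool) (j : Fin (C0 + 1)) (Z : M.Γ) (P : Fin (M.k + 1) → ℕ)
    (hP : ∀ i, P i ≤ w.length + 1) (Q2 : M.Q × Bool × Fin (C0 + 1)) (D : Fin (M.k + 1) → Mv) (γ : List M.Γ)
    (h : (cnt C0 M).tr (q, u, j) Z (fun i => symAt w (P i)) = some (Q2, D, γ)) :
    ∃ (q' : M.Q) (d : Fin M.k → Mv) (m : Mv) (j' : Fin (C0 + 1)), M.tr q Z (fun i => symAt w (P i.castSucc)) = some (q', d, γ) ∧
      Q2 = (q', fl γ u, j') ∧ D = exn d m ∧ tu γ u + (j' : ℕ) + min (mvN m (P (Fin.last M.k))) (w.length + 1) = j + P (Fin.last M.k) := by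
  have hl := hP (Fin.last M.k)
  simp only [cnt] at h
  cases h1 : M.tr q Z (fun i => symAt w (P i.castSucc)) with
  | none => rw [h1] at h; simp at h
  | some v =>
    obtain ⟨q', d, γ'⟩ := v
    rw [h1] at h
    simp only at h
    have ht : tu γ' u = 0 ∨ tu γ' u = 1 := by
      unfold tu; split_ifs <;> simp
    by_cases h0 : tu γ' u = 0
    · rw [if_pos h0] at h
      simp only [Option.some.injEq, Prod.mk.injEq] at h
      obtain ⟨h2, h3, h4⟩ := h
      subst h4
      refine ⟨q', d, Mv.S, j, rfl, h2.symm, h3.symm, ?_⟩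
      rw [h0]
      have : mvN Mv.S (P (Fin.last M.k)) = P (Fin.last M.k) := rfl
      rw [this, min_eq_left hl]
      omega
    · have h1' : tu γ' u = 1 := by omega
      rw [if_neg h0] at h
      by_cases hj : j ≠ 0
      · rw [if_pos hj] at h
        simp only [Option.some.injEq, Prod.mk.injEq] at h
        obtain ⟨h2, h3, h4⟩ := h
        subst h4
        refine ⟨q', d, Mv.S, j - 1, rfl, h2.symm, h3.symm, ?_⟩
        have : mvN Mv.S (P (Fin.last M.k)) = P (Fin.last M.k) := rfl
        rw [this, min_eq_left hl, h1']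
        have hjv : (j : ℕ) ≠ 0 := fun h => hj (Fin.ext h)
        have h5 : ((j - 1 : Fin (C0 + 1)) : ℕ) = (j : ℕ) - 1 := by
          have h6 : 1 ≤ (j : ℕ) := by omega
          have h7 : (1 : ℕ) < C0 + 1 := lt_of_le_of_lt h6 j.isLt
          have h8 : ((1 : Fin (C0 + 1)) : ℕ) = 1 := by
            rw [Fin.val_one', Nat.mod_eq_of_lt h7]
          rw [Fin.sub_val_of_le (by rw [Fin.le_def, h8]; exact h6), h8]
        rw [h5]
        omega
      · rw [if_neg hj] at h
        have hs : symAt w (P (Fin.last M.k)) ≠ Sym.lm := by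
          intro hs
          rw [hs] at h
          simp at h
        have hp : P (Fin.last M.k) ≠ 0 := fun hp => hs ((symAt_lm w _).2 hp)
        have h' : some ((q', fl γ' u, j), exn d Mv.L, γ') = some (Q2, D, γ) := by
          cases h9 : symAt w (P (Fin.last M.k)) with
          | lm => exact absurd h9 hs
          | rm => rw [h9] at h; simpa using h
          | ch a => rw [h9] at h; simpa using h
        simp only [Option.some.injEq, Prod.mk.injEq] at h'
        obtain ⟨h2, h3, h4⟩ := h'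
        subst h4
        refine ⟨q', d, Mv.L, j, rfl, h2.symm, h3.symm, ?_⟩
        have : mvN Mv.L (P (Fin.last M.k)) = P (Fin.last M.k) - 1 := rfl
        rw [this, h1', min_eq_left (by omega)]
        omega

theorem mCN1 : StCN1 := by
  intro α C0 M w t u q j P s u' Q' P' s' hP hr
  have key : ∀ (t : ℕ) (c c' : Bool × (cnt C0 M).Q × (Fin (cnt C0 M).k → ℕ) × List (cnt C0 M).Γ), TRun (cnt C0 M) w t c c' →
      ∀ (u : Bool) (q : M.Q) (j : Fin (C0 + 1)) (P : Fin (M.k + 1) → ℕ) (s : List M.Γ)
        (u' : Bool) (Q' : M.Q × Bool × Fin (C0 + 1)) (P' : Fin (M.k + 1) → ℕ) (s' : List M.Γ),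
        (∀ i, P i ≤ w.length + 1) → c = (u, (q, u, j), P, s) → c' = (u', Q', P', s') →
        TRun M w t (u, q, (fun i => P i.castSucc), s) (u', Q'.1, (fun i => P' i.castSucc), s') ∧
        t + (Q'.2.2 : ℕ) + P' (Fin.last M.k) = j + P (Fin.last M.k) := by
    intro t c c' h
    induction h with
    | refl c =>
      intro u q j P s u' Q' P' s' hP h1 h2
      subst h1
      cases h2
      refine ⟨TRun.refl _, ?_⟩
      simp
    | step t u0 q0 q1 p0 d0 Z s0 γ c htr hrun ih =>
      intro u q j P s u' Q' P' s' hP h1 h2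
      cases h1
      obtain ⟨q', d, m, j', ha, rfl, rfl, hb⟩ := cnt_tr C0 M w q u0 j Z p0 hP q1 d0 γ htr
      obtain ⟨hc, hd⟩ := ih (fl γ u0) q' j' (nps w (exn d m) p0) (γ ++ s0) u' Q' P' s' (nps_le w _ _) rfl h2
      rw [nps_last] at hd
      refine ⟨?_, ?_⟩
      · refine TRun.step t u0 q q' _ d Z s0 γ _ ha ?_
        have := nps_exn w d m p0
        rw [← this]
        exact hc
      · have hb' : tu γ u0 + (j' : ℕ) + min (mvN m (p0 (Fin.last M.k))) (w.length + 1) = (j : ℕ) + p0 (Fin.last M.k) := hb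
        have hd' : t + (Q'.2.2 : ℕ) + P' (Fin.last M.k) = (j' : ℕ) + min (mvN m (p0 (Fin.last M.k))) (w.length + 1) := hd
        change tu γ u0 + t + (Q'.2.2 : ℕ) + P' (Fin.last M.k) = (j : ℕ) + p0 (Fin.last M.k)
        clear hb hd
        calc tu γ u0 + t + (Q'.2.2 : ℕ) + P' (Fin.last M.k) = tu γ u0 + (t + (Q'.2.2 : ℕ) + P' (Fin.last M.k)) := by ring
          _ = tu γ u0 + ((j' : ℕ) + min (mvN m (p0 (Fin.last M.k))) (w.length + 1)) := by rw [hd']
          _ = tu γ u0 + (j' : ℕ) + min (mvN m (p0 (Fin.last M.k))) (w.length + 1) := by ring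
          _ = _ := hb'
  exact key t _ _ hr u q j P s u' Q' P' s' hP rfl rfl

end Pool.Agent.Helper83.PT.H73
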