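import Pool.Agent.Helper83.PT.St7

set_option autoImplicit false

/-! Project PT (helper83), MP_26f0da_lc: module DP1, runs of the one-head simulation of a one-way automaton. -/

namespace Pool.Agent.Helper83.PT.H73D

open Pool.Agent.Helper73.DC
open Finset
open scoped Classical

theorem symAt_cases {α : Type} (w : List α) (i : ℕ) :
    (symAt w i = Sym.lm ∧ i = 0) ∨ (symAt w i = Sym.rm ∧ w.length + 1 ≤ i) ∨
      (∃ a, symAt w i = Sym.ch a ∧ 1 ≤ i ∧ i ≤ w.length ∧ w[i - 1]? = some a) := by
  unfold symAt
  by_cases h : i = 0
  · left; simp [h]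
  · rw [if_neg h]
    right
    cases h3 : w[i - 1]? with
    | none =>
      left
      rw [List.getElem?_eq_none_iff] at h3
      exact ⟨rfl, by omega⟩
    | some a =>
      right
      have h4 := (List.getElem?_eq_some_iff.1 h3).1
      exact ⟨a, rfl, by omega, by omega, rfl⟩

theorem drop_cons {α : Type} (w : List α) (i : ℕ) (a : α) (h1 : 1 ≤ i) (h : w[i - 1]? = some a) : w.drop (i - 1) = a :: w.drop i := by
  obtain ⟨h2, h3⟩ := List.getElem?_eq_some_iff.1 h
  rw [List.drop_eq_getElem_cons h2, h3]
  have : i - 1 + 1 = i := by omega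
  rw [this]

/-- One move. -/
theorem mpd_step {α : Type} [Fintype α] (M : DPDA α) (w : List α) (u : Bool) (q : M.Q) (o : Option α) (e : Bool) (p : Fin 1 → ℕ) (v : List α)
    (Z : M.Γ) (s : List M.Γ) (Q2 : (M.Q × Option α) × Bool) (d : Fin 1 → Mv) (γ : List M.Γ) (hc : Cor w o e (p 0) v)
    (h : (mpd M).tr ((q, o), e) Z (fun i => symAt w (p i)) = some (Q2, d, γ)) :
    ∃ v', Cor w Q2.1.2 Q2.2 (nps w d p 0) v' ∧
      ∀ (t : ℕ) (c : Bool × M.Q × List α × List M.Γ), DRun M t (fl γ u, Q2.1.1, v', γ ++ s) c → DRun M (tu γ u + t) (u, q, v, Z :: s) c := by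
  cases o with
  | some a =>
    obtain ⟨h1, h2, h3, h4⟩ := hc
    simp only [mpd] at h
    cases h5 : M.tr q Z a with
    | none => rw [h5] at h; simp at h
    | some x =>
      obtain ⟨q', γ'⟩ := x
      rw [h5] at h
      simp only at h
      rcases symAt_cases w (p 0) with ⟨h6, h7⟩ | ⟨h6, h7⟩ | ⟨b, h6, h7, h8, h9⟩
      · omega
      · rw [h6] at h
        simp only [Option.some.injEq, Prod.mk.injEq] at h
        obtain ⟨rfl, rfl, rfl⟩ := h
        refine ⟨w.drop (p 0 - 1), ?_, ?_⟩
        · have hn : nps w (fun _ => Mv.S) p 0 = p 0 := by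
            unfold nps; change min (p 0) _ = _; omega
          simp only [Cor]
          rw [hn]
          exact ⟨rfl, h3, fun _ => by omega⟩
        · intro t c hr
          rw [h1]
          exact DRun.rd t u q q' a _ Z s γ' c h5 hr
      · rw [h6] at h
        simp only [Option.some.injEq, Prod.mk.injEq] at h
        obtain ⟨rfl, rfl, rfl⟩ := h
        refine ⟨w.drop (p 0 - 1), ?_, ?_⟩
        · have hn : nps w (fun _ => Mv.S) p 0 = p 0 := by
            unfold nps; change min (p 0) _ = _; omega
          simp only [Cor]
          rw [hn]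
          exact ⟨rfl, h3, fun h => by simp at h⟩
        · intro t c hr
          rw [h1]
          exact DRun.rd t u q q' a _ Z s γ' c h5 hr
  | none =>
    obtain ⟨h1, h2, h3⟩ := hc
    simp only [mpd] at h
    rcases symAt_cases w (p 0) with ⟨h6, h7⟩ | ⟨h6, h7⟩ | ⟨b, h6, h7, h8, h9⟩
    · rw [h6] at h
      simp only [Option.some.injEq, Prod.mk.injEq] at h
      obtain ⟨rfl, rfl, rfl⟩ := h
      refine ⟨v, ?_, ?_⟩
      · have hn : nps w (fun _ => Mv.R) p 0 = 1 := by
          unfold nps; change min (p 0 + 1) _ = _; omega
        simp only [Cor]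
        rw [hn]
        refine ⟨by rw [h1, h7], by omega, fun he => ?_⟩
        have := h3 he
        omega
      · intro t c hr
        have h8 : tu [Z] u = 0 := by simp [tu]
        have h9 : fl [Z] u = u := by simp [fl]
        rw [h8, zero_add]
        rw [h9] at hr
        exact hr
    · rw [h6] at h
      by_cases he : e = false
      · simp only at h
        rw [if_pos he] at h
        simp only [Option.some.injEq, Prod.mk.injEq] at h
        obtain ⟨rfl, rfl, rfl⟩ := h
        refine ⟨v, ?_, ?_⟩
        · have hn : nps w (fun _ => Mv.S) p 0 = p 0 := by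
            unfold nps; change min (p 0) _ = _; omega
          simp only [Cor]
          rw [hn]
          exact ⟨h1, h2, fun _ => by omega⟩
        · intro t c hr
          have h8 : tu [Z] u = 0 := by simp [tu]
          have h9 : fl [Z] u = u := by simp [fl]
          rw [h8, zero_add]
          rw [h9] at hr
          exact hr
      · simp only at h
        rw [if_neg he] at h
        cases h5 : M.ep q Z with
        | none => rw [h5] at h; simp at h
        | some x =>
          obtain ⟨q', γ'⟩ := x
          rw [h5] at h
          simp only [Option.some.injEq, Prod.mk.injEq] at h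
          obtain ⟨rfl, rfl, rfl⟩ := h
          refine ⟨v, ?_, ?_⟩
          · have hn : nps w (fun _ => Mv.S) p 0 = p 0 := by
              unfold nps; change min (p 0) _ = _; omega
            simp only [Cor]
            rw [hn]
            exact ⟨h1, h2, fun _ => by omega⟩
          · intro t c hr
            exact DRun.ep t u q q' v Z s γ' c h5 hr
    · rw [h6] at h
      simp only at h
      cases h5 : M.ep q Z with
      | some x =>
        obtain ⟨q', γ'⟩ := x
        rw [h5] at h
        simp only [Option.some.injEq, Prod.mk.injEq] at h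
        obtain ⟨rfl, rfl, rfl⟩ := h
        refine ⟨v, ?_, ?_⟩
        · have hn : nps w (fun _ => Mv.S) p 0 = p 0 := by
            unfold nps; change min (p 0) _ = _; omega
          simp only [Cor]
          rw [hn]
          exact ⟨h1, h2, h3⟩
        · intro t c hr
          exact DRun.ep t u q q' v Z s γ' c h5 hr
      | none =>
        rw [h5] at h
        simp only at h
        cases h10 : M.tr q Z b with
        | none => rw [h10] at h; simp at h
        | some x =>
          rw [h10] at h
          simp only [Option.some.injEq, Prod.mk.injEq] at h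
          obtain ⟨rfl, rfl, rfl⟩ := h
          refine ⟨v, ?_, ?_⟩
          · have hn : nps w (fun _ => Mv.R) p 0 = p 0 + 1 := by
              unfold nps; change min (p 0 + 1) _ = _; omega
            simp only [Cor]
            rw [hn]
            refine ⟨?_, by omega, by omega, ?_⟩
            · rw [h1, drop_cons w (p 0) b h7 h9]
              simp
            · have : p 0 + 1 - 2 = p 0 - 1 := by omega
              rw [this]; exact h9
          · intro t c hr
            have h8 : tu [Z] u = 0 := by simp [tu]
            have h9 : fl [Z] u = u := by simp [fl]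
            rw [h8, zero_add]
            rw [h9] at hr
            exact hr

theorem mDP1 : StDP1 := by
  intro α _ M w t u q o e p v s u' q' o' e' p' s' hc hr
  have key : ∀ (t : ℕ) (c c' : Bool × (mpd M).Q × (Fin (mpd M).k → ℕ) × List (mpd M).Γ), TRun (mpd M) w t c c' →
      ∀ (u : Bool) (q : M.Q) (o : Option α) (e : Bool) (p : Fin 1 → ℕ) (v : List α) (s : List M.Γ)
        (u' : Bool) (q' : M.Q) (o' : Option α) (e' : Bool) (p' : Fin 1 → ℕ) (s' : List M.Γ), Cor w o e (p 0) v →
        c = (u, ((q, o), e), p, s) → c' = (u', ((q', o'), e'), p', s') →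
        ∃ v', Cor w o' e' (p' 0) v' ∧ DRun M t (u, q, v, s) (u', q', v', s') := by
    intro t c c' h
    induction h with
    | refl c =>
      intro u q o e p v s u' q' o' e' p' s' hc h1 h2
      subst h1
      cases h2
      exact ⟨v, hc, DRun.refl _⟩
    | step t u0 q0 q1 p0 d0 Z s0 γ c htr hrun ih =>
      intro u q o e p v s u' q' o' e' p' s' hc h1 h2
      cases h1
      obtain ⟨v1, hc1, hd⟩ := mpd_step M w u0 q o e p0 v Z s0 q1 d0 γ hc htr
      obtain ⟨⟨q2, o2⟩, e2⟩ := q1
      obtain ⟨v', hc', hd'⟩ := ih (fl γ u0) q2 o2 e2 (nps w d0 p0) v1 (γ ++ s0) u' q' o' e' p' s' hc1 rfl h2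
      exact ⟨v', hc', hd t _ hd'⟩
  exact key t _ _ hr u q o e p v s u' q' o' e' p' s' hc rfl rfl

end Pool.Agent.Helper83.PT.H73D
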